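import Mathlib
import Pool.Agent.Helper94.EngelOrderI

set_option autoImplicit false

namespace Pool.Agent.Results.MP_315210_al.ConradEngel

/-- Let `G` be a `k`-Engel group and let `r` be ANY right order on `G`. Then `r` is a right
Conrad ordering (the `1 < f < g` condition, and: every convex jump `C ⊂ D` has `C` normal in `D`
with archimedean quotient), and `G` is locally indicable. -/
theorem result :
    ∀ (k : ℕ) (G : Type) [Group G],
      (∀ x y : G, (fun z : G => z⁻¹ * y⁻¹ * z * y)^[k] x = 1) →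
      ∀ r : G → G → Prop,
        (∀ a, ¬ r a a) → (∀ a b c, r a b → r b c → r a c) →
        (∀ a b, a = b ∨ r a b ∨ r b a) →
        (∀ a b c, r a b → r (a * c) (b * c)) →
        (∀ f g : G, r 1 f → r f g → ∃ m : ℕ, 0 < m ∧ r g (f * g ^ m * f⁻¹)) ∧
        (∀ C D : Subgroup G,
          (∀ a b c : G, a ∈ C → c ∈ C → r a b → r b c → b ∈ C) →
          (∀ a b c : G, a ∈ D → c ∈ D → r a b → r b c → b ∈ D) → C < D →
          (∀ K : Subgroup G, (∀ a b c : G, a ∈ K → c ∈ K → r a b → r b c → b ∈ K) →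
            C ≤ K → K ≤ D → K = C ∨ K = D) →
          (∀ c d : G, c ∈ C → d ∈ D → d⁻¹ * c * d ∈ C) ∧
          (∀ x y : G, x ∈ D → x ∉ C → r 1 x → y ∈ D → ∃ m : ℕ, r y (x ^ m))) ∧
        (∀ H : Subgroup G, H.FG → H ≠ ⊥ →
          ∃ φ : H →* Multiplicative ℤ, Function.Surjective φ) := by
  intro k G _ hE r hirr htr htot hmul
  have h := Pool.Agent.Helper94.right_order_jumps (n := k) (G := G) hE r hirr htr htot hmul
  exact ⟨fun f g hf hfg =>
    Pool.Agent.Helper94.right_order_conrad hE r hirr htr htot hmul f g hf hfg, h.1, h.2⟩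

end Pool.Agent.Results.MP_315210_al.ConradEngel
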